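import Pool.Agent.H71RE.Final

/-!
# A co-amenable subgroup `H < G` for which `LH ⊆ LG` is not relatively embeddable over `LH`

This answers Q1 in the negative, with `N = ℂ` (then `N ⋊ H ⊆ N ⋊ G` is `LH ⊆ LG`). All definitions
are in `Pool/Agent/H71RE/Defs.lean`, `Pool/Agent/N557/QW/Fin.lean`, `Pool/Agent/N859/QW/Defs.lean`,
`Pool/Agent/N859/QW/Stm.lean` and (WEP, QWEP) `Pool/Agent/N859/QW/Defs2.lean`:
* `l2 G = ℓ²(G)`, `dl G = δ_1`, `vN S`: the von Neumann algebra generated by `S`; `LG G`: the left group
  von Neumann algebra of `G`; `LH H`: the von Neumann algebra on `ℓ²(G)` generated by the left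
  translations by the elements of `H`;
* `CoAmenable H`: `ℓ^∞(G/H)` has a `G`-invariant mean;
* `RE N M μ N₁ ν`: the inclusion `N ⊆ M` (with the trace `x ↦ ⟨μ, x μ⟩`) is RE/`N₁` (with the trace
  `x ↦ ⟨ν, x ν⟩`), exactly as in the problem file: there are an ultrafilter `U` on `ℕ`, QWEP finite
  von Neumann algebras `A k` with hyperfinite (`Hyperfinite`) von Neumann subalgebras `B k`, the tensor
  products `C k = A k ⊗̄ N₁` (`IsTensor`) and their tracial ultraproduct `Mh` (`IsUltraproduct`), and a
  trace preserving unital `*`-homomorphism `π : M → Mh` (`IsHom`) which maps `N` to the ultraproduct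
  `Nh` (`ultraSet`) of the `B k ⊗̄ N₁` (`Tens`), with `E_{π(N)} = E_{Nh} E_{π(M)}` on `Mh`; the
  conditional expectation onto `S` is given by the projection `l2proj S η` of the GNS space.
Only `IsTracial` representations (the trace is a vector state) are used; every finite von Neumann
algebra with a faithful normal tracial state has one.

**Idea.** `G₀` is a residually finite group with property (T) and `K₀ < G₀` is a subgroup with property
(T) such that `G₀` is generated by elements `g` with `g⁻¹ K₀ g ⊆ K₀`, but `K₀` is not normal: some
`k ∈ K₀` has `g k g⁻¹ ∉ K₀` for such a `g`. Property (T) for `G₀`, `K₀` gives a rigidity statement for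
almost representations of `G₀` on finite-dimensional spaces: contractions which almost commute with
`K₀` almost commute with `g k g⁻¹` (because the algebra of the elements almost commuting with `K₀` is
conjugated into itself up to small errors by the elements `g`, and in finite dimensions it cannot
become smaller). The group `G` is the wreath product of `G₀` and `ℤ`, i.e. the extension of the direct
sum of copies of `G₀`, indexed by `ℤ`, by the shift, and `H` consists of the `f` in the direct sum
with `f n ∈ K₀` for `n ≥ 0`; `H` is co-amenable in `G` and residually finite, and `H ∩ G₀ = K₀` for the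
copy of `G₀` with the index `0`. Were `LH ⊆ LG` RE/`LH`, the elements of `G₀` would be
approximated by elements of the group rings `A k [H]`, those of `K₀` by elements with coefficients in a
finite-dimensional algebra `D ⊆ B k`, and `g k g⁻¹` by an element with the coefficients almost
orthogonal to `D`. Matrix models of the QWEP algebra `A k`, with a finite group of unitaries which
commutes with `D` and the averages over which are the conditional expectation onto `D`, and finite
quotients of `H` give almost representations of `G₀` which contradict the rigidity statement.

The proof is joint work with helper4, helper8, helper12, helper53, helper63, helper69, helper78,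
helper85 and helper86 (pieces in `Pool/Agent/H71RE`).
-/

set_option autoImplicit false

namespace Pool.Agent.Results.MP_56a53b_an.CoamenableNotRE

open Pool.Agent.H71RE
open Pool.Agent.N859.QW (LG dl)

/-- There are a countable group `G` and a co-amenable subgroup `H` of `G` such that the inclusion
`LH ⊆ LG` of group von Neumann algebras is not RE/`LH`. -/
theorem result : ∃ (G : Type) (_ : Group G) (H : Subgroup G), Countable G ∧ CoAmenable H ∧
    ¬ RE (LH H) (LG G) (dl G) (LG H) (dl H) :=
  Pool.Agent.H71RE.final

end Pool.Agent.Results.MP_56a53b_an.CoamenableNotRE
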